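import Pool.Agent.ZPT.Stmts

/-!
# Squad ZPT, rows EV, SQ, HC
-/

set_option autoImplicit false

open scoped BigOperators

namespace Pool.Agent.ZPT.H84

open Pool.Agent.ZPT

/-- EV -/
theorem ev : EVStmt := by
  intro K _ _ _ A B q hA hB
  have hA' : Summable (fun n : ℕ => ‖((PowerSeries.coeff n A : ℚ) : K) * q ^ n‖) := by
    refine hA.congr fun n => ?_
    rw [norm_mul, norm_pow]
  have hB' : Summable (fun n : ℕ => ‖((PowerSeries.coeff n B : ℚ) : K) * q ^ n‖) := by
    refine hB.congr fun n => ?_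
    rw [norm_mul, norm_pow]
  have hterm : ∀ n : ℕ, ∑ kl ∈ Finset.HasAntidiagonal.antidiagonal n,
      (((PowerSeries.coeff kl.1 A : ℚ) : K) * q ^ kl.1) *
        (((PowerSeries.coeff kl.2 B : ℚ) : K) * q ^ kl.2)
      = ((PowerSeries.coeff n (A * B) : ℚ) : K) * q ^ n := by
    intro n
    rw [PowerSeries.coeff_mul, Rat.cast_sum, Finset.sum_mul]
    refine Finset.sum_congr rfl fun kl hkl => ?_
    rw [Finset.HasAntidiagonal.mem_antidiagonal] at hkl
    rw [Rat.cast_mul, ← hkl, pow_add]
    ring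
  constructor
  · have h := summable_norm_sum_mul_antidiagonal_of_summable_norm hA' hB'
    refine h.congr fun n => ?_
    rw [hterm n, norm_mul, norm_pow]
  · have h := tsum_mul_tsum_eq_tsum_sum_antidiagonal_of_summable_norm hA' hB'
    rw [h]
    exact tsum_congr fun n => (hterm n).symm

/-- SQ -/
theorem sq : SQStmt := by
  intro q hq0 hq1
  have hpi : (2 * Real.pi * Complex.I : ℂ) ≠ 0 := Complex.two_pi_I_ne_zero
  have hp : (Real.pi : ℂ) ≠ 0 := Complex.ofReal_ne_zero.2 Real.pi_ne_zero
  refine ⟨Complex.log q / (2 * Real.pi * Complex.I), ?_, ?_⟩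
  · have h1 : Complex.log q / (2 * Real.pi * Complex.I)
        = ((-1 / (2 * Real.pi) : ℝ) : ℂ) * (Complex.log q * Complex.I) := by
      rw [div_eq_iff hpi]
      push_cast
      field_simp
      linear_combination Complex.log q * Complex.I_sq
    have h2 : Real.log ‖q‖ < 0 := Real.log_neg (norm_pos_iff.2 hq0) hq1
    rw [h1, Complex.im_ofReal_mul, Complex.mul_I_im, Complex.log_re]
    have h3 : -1 / (2 * Real.pi) < 0 := div_neg_of_neg_of_pos (by norm_num) (by positivity)
    exact mul_pos_of_neg_of_neg h3 h2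
  · rw [ee, mul_div_cancel₀ _ hpi, Complex.exp_log hq0]

end Pool.Agent.ZPT.H84
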